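import Pool.Agent.H29.HMF.Stmts2

/-!
# Row GMB of the board hmf (MP_e1ba20_an): compact flats for subgroups of finite index
-/

set_option autoImplicit false

open Matrix MeasureTheory

namespace Pool.HMF

open Pool.HMG (flat flats)

theorem gmb_dg_mul (v w : ℝ) : dg v * dg w = dg (v + w) := by
  unfold dg
  rw [diagonal_mul_diagonal]
  congr 1
  funext i
  fin_cases i
  · simp [Real.exp_add]
  · simp only [Fin.mk_one, cons_val_one]
    show Real.exp (-v) * Real.exp (-w) = Real.exp (-(v + w))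
    rw [← Real.exp_add]
    congr 1
    ring

theorem gmb_dg_zero : dg 0 = 1 := by
  unfold dg
  rw [← diagonal_one]
  congr 1
  funext i
  fin_cases i <;> simp

theorem gmb_pow (hB : BASS) (g : Fin 2 → S2) (η : HM) (l ε : Fin 2 → ℝ) (h : Rel g η l ε)
    (i : Fin 2) (n : ℕ) :
    cm i (η ^ n).1 * (g i).1 = (g i).1 * (ε i ^ n • dg (n * l i)) := by
  obtain ⟨-, -, -, -, -, -, -, -, hm, -, -, h1, -⟩ := hB
  induction n with
  | zero =>
    rw [pow_zero, pow_zero, Matrix.SpecialLinearGroup.coe_one, h1, Nat.cast_zero, zero_mul,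
      gmb_dg_zero, one_smul, Matrix.one_mul, Matrix.mul_one]
  | succ n ih =>
    rw [pow_succ, Matrix.SpecialLinearGroup.coe_mul, hm, Matrix.mul_assoc, (h i).2,
      ← Matrix.mul_assoc, ih, Matrix.mul_assoc, smul_mul_smul_comm, gmb_dg_mul, ← pow_succ]
    congr 3
    push_cast
    ring

theorem gmb_thm (hB : BASS) (hS : SB2S) : GMBS := by
  intro Γ hΓ
  obtain ⟨m, hm, hmem⟩ : ∃ m : ℕ, 0 < m ∧ ∀ η : HM, η ^ m ∈ Γ := by
    refine ⟨Γ.index.factorial, Nat.factorial_pos _, fun η => ?_⟩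
    obtain ⟨k, hk0, hk1, hk2⟩ := Subgroup.exists_pow_mem_of_index_ne_zero hΓ η
    obtain ⟨c, hc⟩ := Nat.dvd_factorial hk0 hk1
    rw [hc, pow_mul]
    exact Γ.pow_mem hk2 c
  have hm0 : (0 : ℝ) < m := by exact_mod_cast hm
  refine ⟨16 * (m : ℝ) ^ 2, by positivity, ?_⟩
  intro g R A B C D hR hA hB' hC hD hdet ha hb T hT
  have hcm := hB.2.2.2.2.2.2.2.2.1
  have key : ∀ l ∈ Lam g, ∃ δ ∈ Γ, ∃ ε : Fin 2 → ℝ, (∀ i, ε i ^ 2 = 1) ∧
      ∀ i, cm i δ.1 * (g i).1 = (g i).1 * (ε i • dg (m * l i)) := by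
    rintro l ⟨η, ε, h⟩
    refine ⟨η ^ m, hmem η, fun i => ε i ^ m, fun i => ?_, fun i => gmb_pow hB g η l ε h i m⟩
    rw [← pow_mul, mul_comm, pow_mul, (h i).1, one_pow]
  refine ⟨g, rfl, Set.Icc (fun _ => -(2 * m * R)) (fun _ => 2 * m * R), isCompact_Icc, ?_, ?_⟩
  · rw [Real.volume_Icc_pi, Fin.prod_univ_two, ← ENNReal.ofReal_mul (by
      have : 0 ≤ 2 * (m : ℝ) * R := by positivity
      linarith)]
    have h5 : 0 ≤ 16 * (m : ℝ) ^ 2 * R ^ 2 := by positivity
    rw [ENNReal.ofReal_lt_ofReal_iff (lt_of_le_of_lt h5 hT)]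
    refine lt_of_eq_of_lt ?_ hT
    ring
  · apply Set.Subset.antisymm
    · rintro h ⟨γ, hγ, v, -, hk⟩
      obtain ⟨s, hs⟩ : ∃ s : ℝ, s = (v 0 * D - v 1 * C) / (m * (A * D - B * C)) := ⟨_, rfl⟩
      obtain ⟨t, ht⟩ : ∃ t : ℝ, t = (A * v 1 - B * v 0) / (m * (A * D - B * C)) := ⟨_, rfl⟩
      have hmd : (m : ℝ) * (A * D - B * C) ≠ 0 := mul_ne_zero hm0.ne' hdet
      have hs' : s * (m * (A * D - B * C)) = v 0 * D - v 1 * C := by
        rw [hs, div_mul_cancel₀ _ hmd]
      have ht' : t * (m * (A * D - B * C)) = A * v 1 - B * v 0 := by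
        rw [ht, div_mul_cancel₀ _ hmd]
      have e0 : v 0 = m * (s * A + t * C) := by
        apply mul_left_cancel₀ hdet
        linear_combination -A * hs' - C * ht'
      have e1 : v 1 = m * (s * B + t * D) := by
        apply mul_left_cancel₀ hdet
        linear_combination -B * hs' - D * ht'
      have hl := (hS g).2.2.1 _ ((hS g).2.2.2 _ ha ⌊s⌋) _ ((hS g).2.2.2 _ hb ⌊t⌋)
      obtain ⟨l, hld⟩ : ∃ l : Fin 2 → ℝ, l = ⌊s⌋ • ![A, B] + ⌊t⌋ • ![C, D] := ⟨_, rfl⟩
      rw [← hld] at hl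
      have l0 : l 0 = ⌊s⌋ * A + ⌊t⌋ * C := by
        rw [hld]
        simp
      have l1 : l 1 = ⌊s⌋ * B + ⌊t⌋ * D := by
        rw [hld]
        simp
      obtain ⟨δ, hδΓ, ε, hε, hδ⟩ := key l hl
      have hbd : ∀ x y : ℝ, |x| ≤ R → |y| ≤ R →
          |m * (s * x + t * y) - m * (⌊s⌋ * x + ⌊t⌋ * y)| ≤ 2 * m * R := by
        intro x y hx hy
        have e : m * (s * x + t * y) - m * (⌊s⌋ * x + ⌊t⌋ * y) =
            m * (Int.fract s * x + Int.fract t * y) := by
          rw [← Int.self_sub_floor, ← Int.self_sub_floor]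
          ring
        rw [e, abs_mul, abs_of_pos hm0]
        have f1 : |Int.fract s * x| ≤ R := by
          rw [abs_mul, abs_of_nonneg (Int.fract_nonneg s)]
          calc Int.fract s * |x| ≤ 1 * |x| :=
                mul_le_mul_of_nonneg_right (Int.fract_lt_one s).le (abs_nonneg _)
            _ ≤ R := by rw [one_mul]; exact hx
        have f2 : |Int.fract t * y| ≤ R := by
          rw [abs_mul, abs_of_nonneg (Int.fract_nonneg t)]
          calc Int.fract t * |y| ≤ 1 * |y| :=
                mul_le_mul_of_nonneg_right (Int.fract_lt_one t).le (abs_nonneg _)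
            _ ≤ R := by rw [one_mul]; exact hy
        have f3 := abs_add_le (Int.fract s * x) (Int.fract t * y)
        have f4 : |Int.fract s * x + Int.fract t * y| ≤ 2 * R := by linarith
        calc (m : ℝ) * |Int.fract s * x + Int.fract t * y| ≤ m * (2 * R) :=
              mul_le_mul_of_nonneg_left f4 hm0.le
          _ = 2 * m * R := by ring
      refine ⟨γ * δ, Γ.mul_mem hγ hδΓ, fun i => v i - m * l i, ?_, fun i => ?_⟩
      · have b0 := abs_le.1 (hbd A C hA hC)
        have b1 := abs_le.1 (hbd B D hB' hD)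
        rw [← e0, ← l0] at b0
        rw [← e1, ← l1] at b1
        rw [Set.mem_Icc]
        constructor
        · intro i
          fin_cases i
          · exact b0.1
          · exact b1.1
        · intro i
          fin_cases i
          · exact b0.2
          · exact b1.2
      · obtain ⟨k, hk1, hk2⟩ := hk i
        have hk2' : (h i).1 = cm i γ.1 * (g i).1 * dg (v i) * k.1 := hk2
        refine ⟨⟨ε i • k.1, by
          rw [Matrix.det_smul, k.2, Fintype.card_fin, hε i, mul_one]⟩, ?_, ?_⟩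
        · show (ε i • k.1) * (ε i • k.1)ᵀ = 1
          rw [Matrix.transpose_smul, smul_mul_smul_comm, hk1, ← pow_two, hε i, one_smul]
        · show (h i).1 = cm i (γ * δ).1 * (g i).1 * dg (v i - m * l i) * (ε i • k.1)
          have h6 : (g i).1 * dg (m * l i) = ε i • (cm i δ.1 * (g i).1) := by
            rw [hδ i, Matrix.mul_smul, smul_smul, ← pow_two, hε i, one_smul]
          have h7 : dg (v i) = dg (m * l i) * dg (v i - m * l i) := by
            rw [gmb_dg_mul]
            congr 1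
            ring
          rw [hk2', h7, Matrix.SpecialLinearGroup.coe_mul, hcm]
          calc cm i γ.1 * (g i).1 * (dg (m * l i) * dg (v i - m * l i)) * k.1
              = cm i γ.1 * ((g i).1 * dg (m * l i)) * dg (v i - m * l i) * k.1 := by
                simp only [Matrix.mul_assoc]
            _ = cm i γ.1 * (ε i • (cm i δ.1 * (g i).1)) * dg (v i - m * l i) * k.1 := by rw [h6]
            _ = cm i γ.1 * cm i δ.1 * (g i).1 * dg (v i - m * l i) * (ε i • k.1) := by
                simp only [Matrix.mul_smul, Matrix.smul_mul, Matrix.mul_assoc]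
    · rintro h ⟨γ, hγ, v, -, hk⟩
      exact ⟨γ, hγ, v, Set.mem_univ _, hk⟩

end Pool.HMF
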